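import Pool.Agent.Helper73.BR.Core

/-!
# Part A: labelled trees and complements of compact sets
-/

open Set Filter Topology MeasureTheory
open scoped ContDiff

namespace Pool.Agent.Helper73.BR

variable {m : ℕ}

/-! ## Labelled trees on `List ℕ` (the children of `t` are the lists `i :: t`) -/

/-- Bisimilarity of labelled trees. -/
def Bisim (a b : List ℕ → ℕ) : Prop :=
  ∃ R : List ℕ → List ℕ → Prop, R [] [] ∧ ∀ s t, R s t →
    a s = b t ∧ (∀ i, ∃ j, R (i :: s) (j :: t)) ∧ (∀ j, ∃ i, R (i :: s) (j :: t))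

/-- Labels encode the depth. -/
def LabOK (a : List ℕ → ℕ) : Prop := ∀ t, (a t).unpair.1 = t.length

/-! ## Diffeomorphic open subsets of `E` -/

/-- A diffeomorphism between two sets (used for open sets). -/
def DiffOpen (G G' : Set (E m)) : Prop :=
  ∃ f g : E m → E m, ContDiffOn ℝ ∞ f G ∧ ContDiffOn ℝ ∞ g G' ∧ MapsTo f G G' ∧ MapsTo g G' G ∧
    (∀ x ∈ G, g (f x) = x) ∧ (∀ y ∈ G', f (g y) = y)

/-! ## The sequence of balls -/

/-- The `i`-th similarity: centre `(8^{-i}/2, 0, …, 0)`, ratio `8^{-i}/8`. -/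
noncomputable def nu (m : ℕ) (i : ℕ) (y : E m) : E m :=
  fun j => (if j = 0 then (1 / 8 : ℝ) ^ i / 2 else 0) + (1 / 8 : ℝ) ^ i / 8 * y j

/-! ## Permutations of the balls -/

/-- A permutation preserving arbitrarily long initial segments. -/
def BlockFin (π : Equiv.Perm ℕ) : Prop := ∀ M : ℕ, ∃ N, M < N ∧ ∀ i, i < N ↔ π i < N

/-- `π` is realised by a homeomorphism of `E`, smooth away from `0`, permuting the balls. -/
def Realized (m : ℕ) (π : Equiv.Perm ℕ) : Prop :=
  ∃ F G : E m → E m, (∀ x, G (F x) = x) ∧ (∀ x, F (G x) = x) ∧ F 0 = 0 ∧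
    ContDiffOn ℝ ∞ F {0}ᶜ ∧ ContDiffOn ℝ ∞ G {0}ᶜ ∧
    (∀ i, ∀ y : E m, ‖y‖ < 5 / 4 → F (nu m i y) = nu m (π i) y) ∧
    (∀ x : E m, 3 / 4 ≤ ‖x‖ → F x = x)

/-- Compact totally disconnected subsets of the first axis. -/
def Thin (K : Set (E m)) : Prop :=
  IsClosed K ∧ (∀ x ∈ K, ‖x‖ ≤ 1) ∧ (∀ x ∈ K, ∀ j, j ≠ 0 → x j = 0) ∧ IsTotallyDisconnected K

/-! ## Compact sets from coalgebras -/

section
variable {σ : Type}

/-- Approximations of the compact set of a state `s` (`al s`: the set of `s` is nonempty;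
`ch s i`: the state of the `i`-th child). -/
def Kn (m : ℕ) (al : σ → Prop) (ch : σ → ℕ → σ) : ℕ → σ → Set (E m)
  | 0, s => {x | al s ∧ ‖x‖ ≤ 1}
  | d + 1, s => {x | al s ∧ (x = 0 ∨ ∃ i, ∃ y ∈ Kn m al ch d (ch s i), x = nu m i y)}

/-- The compact set of a state. -/
def KK (m : ℕ) (al : σ → Prop) (ch : σ → ℕ → σ) (s : σ) : Set (E m) :=
  {x | ∀ d, x ∈ Kn m al ch d s}

/-- `NodeAt ch s x s'`: following some finite address from the state `s` leads to the point `x`
and to the state `s'`. -/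
inductive NodeAt (m : ℕ) (ch : σ → ℕ → σ) : σ → E m → σ → Prop
  | root (s : σ) : NodeAt m ch s 0 s
  | step (s : σ) (i : ℕ) (y : E m) (s' : σ) (h : NodeAt m ch (ch s i) y s') :
      NodeAt m ch s (nu m i y) s'

end

/-! ## The coalgebra of a labelled tree -/

/-- States. -/
inductive St
  | A (t : List ℕ)
  | R (n : ℕ)
  | O (k : ℕ)
  | dead

/-- Children of states. -/
def chS (a : List ℕ → ℕ) : St → ℕ → St
  | .A t, i => if i % 2 = 0 then .A ((i / 2).unpair.1 :: t) else .R (a t)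
  | .R n, i => if i % 2 = 0 then .R n else .O n
  | .O 0, _ => .dead
  | .O (k + 1), _ => .O k
  | .dead, _ => .dead

/-- `alS n`: the states surviving `n` Cantor-Bendixson derivations. -/
def alS (n : ℕ) : St → Prop
  | .A _ => True
  | .R _ => True
  | .O k => n ≤ k
  | .dead => False

/-- The states surviving all finite derivations. -/
def alP : St → Prop
  | .A _ => True
  | .R _ => True
  | .O _ => False
  | .dead => False

/-- The compact set of a labelled tree. -/
def KT (m : ℕ) (a : List ℕ → ℕ) : Set (E m) := KK m (alS 0) (chS a) (.A [])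

/-! ## Topological predicates -/

section
variable {Y : Type} [TopologicalSpace Y]

/-- Iterated Cantor-Bendixson derivatives. -/
def Dn (T : Set Y) : ℕ → Set Y
  | 0 => T
  | n + 1 => {x | x ∈ Dn T n ∧ AccPt x (𝓟 (Dn T n))}

/-- What survives all finite derivations. -/
def PK (T : Set Y) : Set Y := {x | ∀ n, x ∈ Dn T n}

/-- Points of `PK T` near which the scattered points have rank at most `n` and the points of
`PK T` are limits of points of rank exactly `n`. -/
def Zn (T : Set Y) (n : ℕ) : Set Y :=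
  {x | x ∈ PK T ∧ ∃ O ∈ 𝓝 x, (∀ y ∈ O, y ∈ T → y ∉ PK T → y ∉ Dn T (n + 1)) ∧
    ∀ y ∈ O, y ∈ PK T → AccPt y (𝓟 (Dn T n \ Dn T (n + 1)))}

/-- The boundary points of `Zn T n`. -/
def Bn (T : Set Y) (n : ℕ) : Set Y := closure (Zn T n) \ Zn T n

end

end Pool.Agent.Helper73.BR
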