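import Mathlib

/-!
# MP_70674c_lc, Q2: coded smooth manifolds (with and without boundary)

Dimension `n = m + 2`, so `n` runs over all integers `≥ 2`.
-/

open Set Filter Topology MeasureTheory
open scoped ContDiff

namespace Pool.Agent.Helper73.BR

/-- Euclidean space of dimension `m + 2` (with the sup norm). -/
abbrev E (m : ℕ) := Fin (m + 2) → ℝ

/-- The closed half space: the last coordinate is `≥ 0`. -/
def HS (m : ℕ) : Set (E m) := {x | 0 ≤ x (Fin.last (m + 1))}

/-- Relatively open subsets of `X`. -/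
def ROpen {m : ℕ} (X U : Set (E m)) : Prop := ∃ V : Set (E m), IsOpen V ∧ U = V ∩ X

/-- A parameter (gluing datum) with model space `X`: relatively open sets `U k l ⊆ X` and smooth
transition maps `φ k l : U k l → U l k` satisfying the cocycle conditions
(values outside `U k l` are normalised to `0`). -/
structure Par {m : ℕ} (X : Set (E m)) where
  U : ℕ → ℕ → Set (E m)
  φ : ℕ → ℕ → E m → E m
  ropen : ∀ k l, ROpen X (U k l)
  sub : ∀ k l, U k l ⊆ U k k
  maps : ∀ k l, ∀ x ∈ U k l, φ k l x ∈ U l k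
  smooth : ∀ k l, ContDiffOn ℝ ∞ (φ k l) (U k l)
  diag : ∀ k, ∀ x ∈ U k k, φ k k x = x
  inv : ∀ k l, ∀ x ∈ U k l, φ l k (φ k l x) = x
  cocycle : ∀ j k l, ∀ x ∈ U j k, x ∈ U j l → φ j k x ∈ U k l ∧ φ k l (φ j k x) = φ j l x
  off : ∀ k l, ∀ x ∉ U k l, φ k l x = 0

/-- Rational boxes. -/
abbrev RBox (m : ℕ) := (Fin (m + 2) → ℚ) × (Fin (m + 2) → ℚ)

/-- The closed rational box `D`, intersected with `X`. -/
def RBox.on {m : ℕ} (D : RBox m) (X : Set (E m)) : Set (E m) :=
  {x | x ∈ X ∧ ∀ i, (D.1 i : ℝ) ≤ x i ∧ x i ≤ (D.2 i : ℝ)}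

variable {m : ℕ} {X : Set (E m)}

/-- The sigma-algebra on parameters: generated by the statements `D ∩ X ⊆ U k l` (`D` a closed
rational box) and the values of `φ k l` at the rational points. -/
instance : MeasurableSpace (Par X) :=
  (⨆ k : ℕ, ⨆ l : ℕ, ⨆ D : RBox m,
    MeasurableSpace.comap (fun p : Par X => (D.on X ⊆ p.U k l : Prop)) ⊤) ⊔
  (⨆ k : ℕ, ⨆ l : ℕ, ⨆ x : Fin (m + 2) → ℚ,
    MeasurableSpace.comap (fun p : Par X => p.φ k l (fun i => (x i : ℝ))) inferInstance)

/-- The disjoint union of the charts `U k k`. -/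
abbrev Par.Pre (p : Par X) := {z : ℕ × E m // z.2 ∈ p.U z.1 z.1}

/-- The gluing relation. -/
def Par.setoid (p : Par X) : Setoid p.Pre where
  r z w := z.1.2 ∈ p.U z.1.1 w.1.1 ∧ p.φ z.1.1 w.1.1 z.1.2 = w.1.2
  iseqv := by
    refine ⟨fun z => ⟨z.2, p.diag _ _ z.2⟩, ?_, ?_⟩
    · rintro z w ⟨h1, h2⟩
      refine ⟨?_, ?_⟩
      · rw [← h2]; exact p.maps _ _ _ h1
      · rw [← h2]; exact p.inv _ _ _ h1
    · rintro z w v ⟨h1, h2⟩ ⟨h3, h4⟩
      rw [← h2] at h3 h4
      have h5 : p.φ z.1.1 w.1.1 z.1.2 ∈ p.U w.1.1 z.1.1 := p.maps _ _ _ h1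
      have h6 := p.cocycle w.1.1 z.1.1 v.1.1 _ h5 h3
      rw [p.inv _ _ _ h1] at h6
      exact ⟨h6.1, h6.2.trans h4⟩

/-- The glued space, with the quotient topology. -/
def Par.Space (p : Par X) : Type := Quotient p.setoid

instance (p : Par X) : TopologicalSpace p.Space :=
  inferInstanceAs (TopologicalSpace (Quotient p.setoid))

/-- The point of the glued space with coordinate `x` in the chart `k`. -/
def Par.point (p : Par X) (k : ℕ) (x : E m) (h : x ∈ p.U k k) : p.Space :=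
  Quotient.mk p.setoid ⟨(k, x), h⟩

/-- Parameters coding a Hausdorff, connected manifold. -/
abbrev ParC {m : ℕ} (X : Set (E m)) := {p : Par X // T2Space p.Space ∧ ConnectedSpace p.Space}

/-- Smoothness of a map between glued spaces, read in the charts. -/
def SmoothMap (p q : Par X) (f : p.Space → q.Space) : Prop :=
  ∀ (k : ℕ) (x : E m) (hx : x ∈ p.U k k) (l : ℕ) (y : E m) (hy : y ∈ q.U l l),
    f (p.point k x hx) = q.point l y hy →
      ∃ g : E m → E m, ContDiffWithinAt ℝ ∞ g X x ∧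
        ∀ᶠ z in 𝓝[X] x, ∃ (hz : z ∈ p.U k k) (hg : g z ∈ q.U l l),
          f (p.point k z hz) = q.point l (g z) hg

/-- The coded manifolds are diffeomorphic. -/
def Diffeo (p q : Par X) : Prop :=
  ∃ f : p.Space ≃ q.Space, SmoothMap p q f ∧ SmoothMap q p f.symm

/-- Borel reducibility. -/
def BorelRed {α β : Type} [MeasurableSpace α] [MeasurableSpace β]
    (R : α → α → Prop) (S : β → β → Prop) : Prop :=
  ∃ f : α → β, Measurable f ∧ ∀ a b, R a b ↔ S (f a) (f b)

end Pool.Agent.Helper73.BR
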