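import Pool.Agent.Helper73.BR.DefsA

/-!
# Part B: germs, abstract manifolds, the countable family, terms and codes
-/

open Set Filter Topology MeasureTheory
open scoped ContDiff

namespace Pool.Agent.Helper73.BR

variable {m : ℕ}

/-! ## Germs and abstract manifolds -/

/-- `u = v ∘ g` near `x` within `X`, with `g` smooth at `x` and valued in `V`. -/
def Tr (X : Set (E m)) {M : Type} (u : E m → M) (x : E m) (v : E m → M) (V : Set (E m)) : Prop :=
  ∃ g : E m → E m, ContDiffWithinAt ℝ ∞ g X x ∧ ∀ᶠ z in 𝓝[X] x, g z ∈ V ∧ u z = v (g z)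

/-- A manifold with countably many charts `pt l : U l → M`, `U l` relatively open in `X`. -/
structure Man (X : Set (E m)) (M : Type) [TopologicalSpace M] where
  U : ℕ → Set (E m)
  pt : ℕ → E m → M
  ropen : ∀ l, ROpen X (U l)
  inj : ∀ l, InjOn (pt l) (U l)
  cover : ∀ z, ∃ l, ∃ x ∈ U l, pt l x = z
  nhds_pt : ∀ l, ∀ x ∈ U l, 𝓝 (pt l x) = map (pt l) (𝓝[X] x)
  trans : ∀ l l' x y, x ∈ U l → y ∈ U l' → pt l x = pt l' y → Tr X (pt l) x (pt l') (U l')

section
variable {X : Set (E m)} {M N : Type} [TopologicalSpace M] [TopologicalSpace N]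

/-- `u : W → M` is a smooth open embedding (an additional chart). -/
def Param (A : Man X M) (u : E m → M) (W : Set (E m)) : Prop :=
  ROpen X W ∧ InjOn u W ∧ (∀ x ∈ W, 𝓝 (u x) = map u (𝓝[X] x)) ∧
    ∀ x ∈ W, ∀ l, ∀ y ∈ A.U l, u x = A.pt l y →
      Tr X u x (A.pt l) (A.U l) ∧ Tr X (A.pt l) y u W

/-- Smooth maps. -/
def SmM (A : Man X M) (B : Man X N) (f : M → N) : Prop :=
  ∀ l, ∀ x ∈ A.U l, ∀ l', ∀ y ∈ B.U l', f (A.pt l x) = B.pt l' y →
    Tr X (f ∘ A.pt l) x (B.pt l') (B.U l')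

/-- Diffeomorphisms. -/
def DM (A : Man X M) (B : Man X N) (f : M ≃ N) : Prop := SmM A B f ∧ SmM B A f.symm

end

/-- Relative interior. -/
def rint (X S : Set (E m)) : Set (E m) := {x | x ∈ X ∧ S ∈ 𝓝[X] x}

/-! ## The half space -/

/-- `f` maps `O` to the half space, boundary points to boundary points and interior points to
interior points. -/
def BP (f : E m → E m) (O : Set (E m)) : Prop :=
  ∀ x ∈ O, f x ∈ HS m ∧ (f x (Fin.last (m + 1)) = 0 ↔ x (Fin.last (m + 1)) = 0)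

/-- The countable family of smooth maps of the half space, and of cut-off functions. -/
structure QFam (m : ℕ) where
  q : ℕ → E m → E m
  ψ : ℕ → E m → ℝ
  q_smooth : ∀ n, ContDiffOn ℝ ∞ (q n) (HS m)
  q_off : ∀ n, ∀ x ∉ HS m, q n x = 0
  q_bp : ∀ n, BP (q n) (HS m)
  ψ_smooth : ∀ j, ContDiff ℝ ∞ (ψ j)
  ψ_range : ∀ j x, 0 ≤ ψ j x ∧ ψ j x ≤ 1
  comp : ∀ a b, ∃ k, ∀ x ∈ HS m, q k x = q a (q b x)
  interp : ∀ j a b, ∃ k, ∀ x ∈ HS m, q k x = (1 - ψ j x) • q a x + ψ j x • q b x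
  sep : ∀ A B : Set (E m), IsClosed A → IsCompact B → Disjoint A B →
    ∃ j, (∀ x ∈ A, ∀ᶠ y in 𝓝 x, ψ j y = 0) ∧ (∀ x ∈ B, ∀ᶠ y in 𝓝 x, ψ j y = 1)
  dense : ∀ f : E m → E m, ContDiffOn ℝ ∞ f (HS m) → BP f (HS m) → ∀ r δ : ℝ, 0 < δ →
    ∃ n, ∀ x ∈ HS m, ‖x‖ ≤ r → ‖q n x - f x‖ < δ ∧
      ‖fderivWithin ℝ (q n) (HS m) x - fderivWithin ℝ f (HS m) x‖ < δ

/-- A class of germs (nice germs) containing the `Q.q n` and closed under interpolation with
them. -/
structure IsNice (Q : QFam m) (nice : (E m → E m) → E m → Prop) : Prop where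
  congr : ∀ F F' x, nice F x → F' =ᶠ[𝓝[HS m] x] F → nice F' x
  spread : ∀ F x, nice F x → ∀ᶠ z in 𝓝[HS m] x, nice F z
  base : ∀ n, ∀ x ∈ HS m, nice (Q.q n) x
  interp : ∀ F x, nice F x → ∀ j n, nice (fun z => (1 - Q.ψ j z) • F z + Q.ψ j z • Q.q n z) x

section
variable {M : Type}

/-- `u = c ∘ F` near `x` with `F` nice at `x`, valued in `V`. -/
def NRel (nice : (E m → E m) → E m → Prop) (u c : E m → M) (V : Set (E m)) (x : E m) : Prop :=
  ∃ F, nice F x ∧ ∀ᶠ z in 𝓝[HS m] x, F z ∈ V ∧ u z = c (F z)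

/-- The germs of the `Q.q n`. -/
def QGerm (Q : QFam m) (F : E m → E m) (x : E m) : Prop :=
  x ∈ HS m ∧ ∃ n, F =ᶠ[𝓝[HS m] x] Q.q n

/-- The list `L` describes exactly the overlap of `b` (on `Qb`) with `bi` (on `Qi`). -/
def ListOK (Q : QFam m) (Qb : Set (E m)) (b : E m → M) (Qi : Set (E m)) (bi : E m → M)
    (L : List (RBox m × ℕ)) : Prop :=
  (∀ x ∈ Qb, b x ∈ bi '' Qi → ∃ e ∈ L, x ∈ e.1.on (HS m) ∧ Q.q e.2 x ∈ Qi) ∧
  (∀ e ∈ L, ∀ x ∈ Qb, x ∈ e.1.on (HS m) → Q.q e.2 x ∈ Qi →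
    ∀ᶠ z in 𝓝[HS m] x, b z = bi (Q.q e.2 z))

end

/-! ## Terms -/

/-- Terms: smooth maps built from the family and the transition maps of a parameter. -/
inductive PTerm
  | q (n : ℕ)
  | tr (l l' : ℕ) (F : PTerm)
  | pre (F : PTerm) (n : ℕ)
  | ip (j : ℕ) (F G : PTerm)
  deriving DecidableEq, Countable

/-- Values of terms. -/
noncomputable def PTerm.eval (Q : QFam m) (p : Par (HS m)) : PTerm → E m → E m
  | .q n => Q.q n
  | .tr l l' F => fun x => p.φ l l' (F.eval Q p x)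
  | .pre F n => fun x => F.eval Q p (Q.q n x)
  | .ip j F G => fun x => (1 - Q.ψ j x) • F.eval Q p x + Q.ψ j x • G.eval Q p x

/-- Where the term is regular. -/
def PTerm.good (Q : QFam m) (p : Par (HS m)) : PTerm → Set (E m)
  | .q _ => HS m
  | .tr l l' F => {x | x ∈ F.good Q p ∧ F.eval Q p x ∈ p.U l l'}
  | .pre F n => {x | x ∈ HS m ∧ Q.q n x ∈ F.good Q p}
  | .ip _ F G => F.good Q p ∩ G.good Q p

/-- The germs of terms. -/
def PGerm (Q : QFam m) (p : Par (HS m)) (F : E m → E m) (x : E m) : Prop :=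
  ∃ T : PTerm, x ∈ T.good Q p ∧ F =ᶠ[𝓝[HS m] x] T.eval Q p

/-- A valid piece: the term is regular on `D`, with values in the chart `l`. -/
def PieceOK (Q : QFam m) (p : Par (HS m)) (D : Set (E m)) (l : ℕ) (T : PTerm) : Prop :=
  D ⊆ T.good Q p ∧ ∀ x ∈ D, T.eval Q p x ∈ p.U l l

/-! ## The manifold of a parameter -/

instance {X : Set (E m)} (p : ParC X) : T2Space p.1.Space := p.2.1
instance {X : Set (E m)} (p : ParC X) : ConnectedSpace p.1.Space := p.2.2
instance {X : Set (E m)} (p : ParC X) : Nonempty p.1.Space := p.2.2.toNonempty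

open Classical in
/-- The charts, as total functions. -/
noncomputable def ptt {X : Set (E m)} (p : ParC X) (k : ℕ) (x : E m) : p.1.Space :=
  if h : x ∈ p.1.U k k then p.1.point k x h else Classical.arbitrary _

/-! ## Codes -/

/-- A code of a box in a coded manifold: the core and finitely many pieces
(box, chart, term). -/
abbrev BCode (m : ℕ) := RBox m × List (RBox m × ℕ × PTerm)

/-- The core. -/
def BCode.core (c : BCode m) : Set (E m) := c.1.on (HS m)

/-- The union of the pieces. -/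
def BCode.all (c : BCode m) : Set (E m) := {x | ∃ e ∈ c.2, x ∈ e.1.on (HS m)}

/-- The union of the relative interiors of the pieces. -/
def BCode.dom (c : BCode m) : Set (E m) := {x | ∃ e ∈ c.2, x ∈ rint (HS m) (e.1.on (HS m))}

open Classical in
/-- The coded map. -/
noncomputable def BCode.fn (Q : QFam m) (p : ParC (HS m)) (c : BCode m) (x : E m) : p.1.Space :=
  ((c.2.find? (fun e => decide (x ∈ e.1.on (HS m)))).map
    (fun e => ptt p e.2.1 (e.2.2.eval Q p.1 x))).getD (Classical.arbitrary _)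

/-- Validity of a box code. -/
def BCode.ok (Q : QFam m) (p : ParC (HS m)) (c : BCode m) : Prop :=
  c.core ⊆ c.dom ∧
  (∀ e ∈ c.2, ∀ x ∈ e.1.on (HS m), x ∈ e.2.2.good Q p.1 ∧ e.2.2.eval Q p.1 x ∈ p.1.U e.2.1 e.2.1) ∧
  (∀ e ∈ c.2, ∀ e' ∈ c.2, ∀ x ∈ e.1.on (HS m), x ∈ e'.1.on (HS m) →
    ptt p e.2.1 (e.2.2.eval Q p.1 x) = ptt p e'.2.1 (e'.2.2.eval Q p.1 x)) ∧
  InjOn (c.fn Q p) c.all ∧
  (∀ e ∈ c.2, ∃ δ : ℝ, 0 < δ ∧ ∀ x ∈ e.1.on (HS m), ∀ y ∈ e.1.on (HS m), ‖x - y‖ < δ →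
    δ * ‖x - y‖ ≤ ‖e.2.2.eval Q p.1 x - e.2.2.eval Q p.1 y‖)

/-- A code of one more box, together with the lists describing its overlaps with the previous
boxes. -/
abbrev NCode (m : ℕ) := BCode m × List (List (RBox m × ℕ))

/-- Validity of a node (a finite sequence of boxes, the last one first). -/
def Valid (Q : QFam m) (p : ParC (HS m)) : List (NCode m) → Prop
  | [] => True
  | c :: s => Valid Q p s ∧ c.1.ok Q p ∧
      List.Forall₂ (fun L c' => ListOK Q c.1.core (c.1.fn Q p) c'.1.core (c'.1.fn Q p) L) c.2 s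

/-- The label of a node: everything except the pieces. -/
def lab (s : List (NCode m)) : List (RBox m × List (List (RBox m × ℕ))) :=
  s.map (fun c => (c.1.1, c.2))

/-- An enumeration of all codes. -/
noncomputable def dec (m : ℕ) : ℕ → NCode m := (exists_surjective_nat (NCode m)).choose

theorem dec_surj (m : ℕ) : Function.Surjective (dec m) :=
  (exists_surjective_nat (NCode m)).choose_spec

open Classical in
/-- The labelled tree of a coded manifold with boundary. -/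
noncomputable def lam (Q : QFam m) (p : ParC (HS m)) (t : List ℕ) : ℕ :=
  Nat.pair t.length (if Valid Q p (t.map (dec m)) then Encodable.encode (lab (t.map (dec m))) + 1
    else 0)

end Pool.Agent.Helper73.BR
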